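import Pool.Agent.L7h22.WA.Pol
import Pool.Agent.L7h27.EX.Stm

/-! Project EX (helper27): `S_VANX`, the sum minus the integral, and the integral. -/

set_option autoImplicit false

namespace Pool.Agent.L7h22.EX

open Finset MeasureTheory Filter Topology
open Pool.Agent.L7h67.WA
open Pool.Agent.L7h27.EX
open Pool.Agent.L7h22.WA (ee_cont ee_sub_le ee_deriv norm_ee)
open Pool.Agent.Helper602.MK (ee)

theorem eeg_cont {φ : ℝ → ℝ} (hφ : Continuous φ) (β : ℝ) : Continuous (fun u : ℝ => ee (β * φ u)) :=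
  ee_cont.comp (continuous_const.mul hφ)

/-- sum minus integral -/
theorem sum_sub_int {φ φ1 : ℝ → ℝ} (hφ : Continuous φ) (A B : ℕ) (hAB : A ≤ B) (β M : ℝ)
    (hd : ∀ u : ℝ, (A : ℝ) ≤ u → u ≤ B → HasDerivAt φ (φ1 u) u)
    (hM : ∀ u : ℝ, (A : ℝ) ≤ u → u ≤ B → |φ1 u| ≤ M) :
    ‖∑ z ∈ Ioc A B, ee (β * φ (z : ℝ)) - ∫ u in (A : ℝ)..(B : ℝ), ee (β * φ u)‖ ≤
      ((B : ℝ) - A) * (2 * Real.pi * |β| * M) := by
  have h1 : ∑ z ∈ Ioc A B, ee (β * φ (z : ℝ)) =
      ∑ j ∈ Ico A B, ee (β * φ ((j + 1 : ℕ) : ℝ)) := by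
    rw [Finset.sum_Ico_add' (fun z : ℕ => ee (β * φ (z : ℝ))) A B 1]
    apply Finset.sum_congr _ (fun _ _ => rfl)
    ext z
    simp only [Finset.mem_Ioc, Finset.mem_Ico]
    omega
  have h2 : ∫ u in (A : ℝ)..(B : ℝ), ee (β * φ u) =
      ∑ j ∈ Ico A B, ∫ u in (j : ℝ)..((j + 1 : ℕ) : ℝ), ee (β * φ u) := by
    rw [intervalIntegral.sum_integral_adjacent_intervals_Ico hAB
      (a := fun j : ℕ => (j : ℝ)) (fun j _ => (eeg_cont hφ β).intervalIntegrable _ _)]
  rw [h1, h2, ← Finset.sum_sub_distrib]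
  have h3 : ∀ j ∈ Ico A B, ‖ee (β * φ ((j + 1 : ℕ) : ℝ)) -
      ∫ u in (j : ℝ)..((j + 1 : ℕ) : ℝ), ee (β * φ u)‖ ≤ 2 * Real.pi * |β| * M := by
    intro j hj
    rw [Finset.mem_Ico] at hj
    have hA : (A : ℝ) ≤ j := by exact_mod_cast hj.1
    have hB : ((j + 1 : ℕ) : ℝ) ≤ B := by exact_mod_cast hj.2
    have h4 : ee (β * φ ((j + 1 : ℕ) : ℝ)) =
        ∫ u in (j : ℝ)..((j + 1 : ℕ) : ℝ), ee (β * φ ((j + 1 : ℕ) : ℝ)) := by
      rw [intervalIntegral.integral_const]
      push_cast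
      simp
    rw [h4, ← intervalIntegral.integral_sub (by simp) ((eeg_cont hφ β).intervalIntegrable _ _)]
    have h5 := intervalIntegral.norm_integral_le_of_norm_le_const (a := (j : ℝ))
      (b := ((j + 1 : ℕ) : ℝ)) (C := 2 * Real.pi * |β| * M)
      (f := fun u : ℝ => ee (β * φ ((j + 1 : ℕ) : ℝ)) - ee (β * φ u)) (by
        intro u hu
        rw [Set.uIoc_of_le (by push_cast; linarith)] at hu
        refine (ee_sub_le _ _).trans ?_
        rw [← mul_sub, abs_mul]
        have h6 : |φ ((j + 1 : ℕ) : ℝ) - φ u| ≤ M * |((j + 1 : ℕ) : ℝ) - u| := by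
          have h7 := Convex.norm_image_sub_le_of_norm_hasDerivWithin_le
            (f := fun u : ℝ => φ u) (f' := fun u : ℝ => φ1 u)
            (s := Set.Icc (A : ℝ) B) (C := M) (x := u) (y := ((j + 1 : ℕ) : ℝ))
            (fun v hv => (hd v hv.1 hv.2).hasDerivWithinAt)
            (fun v hv => by rw [Real.norm_eq_abs]; exact hM v hv.1 hv.2) (convex_Icc _ _)
            ⟨by linarith [hu.1], by linarith [hu.2]⟩ ⟨by push_cast; linarith, hB⟩
          rw [Real.norm_eq_abs, Real.norm_eq_abs] at h7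
          exact h7
        have h8 : |((j + 1 : ℕ) : ℝ) - u| ≤ 1 := by
          rw [abs_of_nonneg (by linarith [hu.2])]
          push_cast at hu ⊢
          linarith [hu.1]
        have hM0 : 0 ≤ M := (abs_nonneg _).trans (hM j hA (by push_cast at hB; linarith))
        have h9 : |φ ((j + 1 : ℕ) : ℝ) - φ u| ≤ M := by
          refine h6.trans ?_
          nlinarith
        have h10 : |β| * |φ ((j + 1 : ℕ) : ℝ) - φ u| ≤ |β| * M :=
          mul_le_mul_of_nonneg_left h9 (abs_nonneg _)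
        have h11 := Real.pi_pos
        nlinarith)
    refine h5.trans (le_of_eq ?_)
    have h6 : |((j + 1 : ℕ) : ℝ) - j| = 1 := by
      push_cast
      simp
    rw [h6, mul_one]
  refine (norm_sum_le _ _).trans ((Finset.sum_le_sum h3).trans (le_of_eq ?_))
  rw [Finset.sum_const, Nat.card_Ico, nsmul_eq_mul, Nat.cast_sub hAB]

/-- one integration by parts -/
theorem int_parts {φ φ1 φ2 : ℝ → ℝ} (hφ : Continuous φ) (a b : ℝ) (hab : a ≤ b) (β m S : ℝ) (hm : 0 < m)
    (d1 : ∀ u : ℝ, a ≤ u → u ≤ b → HasDerivAt φ (φ1 u) u)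
    (d2 : ∀ u : ℝ, a ≤ u → u ≤ b → HasDerivAt φ1 (φ2 u) u)
    (c2 : ContinuousOn φ2 (Set.Icc a b))
    (h1 : ∀ u : ℝ, a ≤ u → u ≤ b → m ≤ φ1 u)
    (h2 : ∀ u : ℝ, a ≤ u → u ≤ b → |φ2 u| ≤ S) :
    2 * Real.pi * (|β| * ‖∫ u in a..b, ee (β * φ u)‖) ≤ 2 / m + (b - a) * (S / m ^ 2) := by
  have hd : ∀ u ∈ Set.uIcc a b, HasDerivAt (fun u : ℝ => (((φ1 u)⁻¹ : ℝ) : ℂ))
      (((-φ2 u / φ1 u ^ 2 : ℝ)) : ℂ) u := by
    intro u hu
    rw [Set.uIcc_of_le hab] at hu
    have h3 : φ1 u ≠ 0 := by linarith [h1 u hu.1 hu.2, hm]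
    exact ((d2 u hu.1 hu.2).inv h3).ofReal_comp
  have hv : ∀ u ∈ Set.uIcc a b, HasDerivAt (fun u : ℝ => ee (β * φ u))
      (2 * Real.pi * Complex.I * β * (φ1 u : ℝ) * ee (β * φ u)) u := by
    intro u hu
    rw [Set.uIcc_of_le hab] at hu
    have h3 := (ee_deriv (β * φ u)).scomp u ((d1 u hu.1 hu.2).const_mul β)
    convert! h3 using 1
    rw [Complex.real_smul]
    push_cast
    ring
  have hFc : ContinuousOn (fun u : ℝ => φ1 u) (Set.uIcc a b) :=
    fun u hu => by
      rw [Set.uIcc_of_le hab] at hu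
      exact (d2 u hu.1 hu.2).continuousAt.continuousWithinAt
  have hne : ∀ u ∈ Set.uIcc a b, φ1 u ^ 2 ≠ 0 := by
    intro u hu
    rw [Set.uIcc_of_le hab] at hu
    have h3 : 0 < φ1 u := by linarith [h1 u hu.1 hu.2, hm]
    positivity
  have hi1 : IntervalIntegrable (fun u : ℝ =>
      (((-φ2 u / φ1 u ^ 2 : ℝ)) : ℂ)) volume a b := by
    apply ContinuousOn.intervalIntegrable
    apply Complex.continuous_ofReal.comp_continuousOn
    rw [Set.uIcc_of_le hab] at hFc hne ⊢
    exact ContinuousOn.div c2.neg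
      (hFc.pow 2) hne
  have hi2 : IntervalIntegrable (fun u : ℝ =>
      2 * Real.pi * Complex.I * β * (φ1 u : ℝ) * ee (β * φ u)) volume a b := by
    apply ContinuousOn.intervalIntegrable
    exact (continuousOn_const.mul (Complex.continuous_ofReal.comp_continuousOn hFc)).mul
      (eeg_cont hφ β).continuousOn
  have h3 := intervalIntegral.integral_mul_deriv_eq_deriv_mul hd hv hi1 hi2
  have h4 : ∫ u in a..b, (((φ1 u)⁻¹ : ℝ) : ℂ) *
      (2 * Real.pi * Complex.I * β * (φ1 u : ℝ) * ee (β * φ u)) =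
      (2 * Real.pi * Complex.I * β) * ∫ u in a..b, ee (β * φ u) := by
    rw [← intervalIntegral.integral_const_mul]
    apply intervalIntegral.integral_congr
    intro u hu
    rw [Set.uIcc_of_le hab] at hu
    have h5 : ((φ1 u : ℝ) : ℂ) ≠ 0 := by
      rw [Ne, Complex.ofReal_eq_zero]
      linarith [h1 u hu.1 hu.2, hm]
    simp only
    push_cast
    field_simp
  rw [h4] at h3
  have h5 : 2 * Real.pi * (|β| * ‖∫ u in a..b, ee (β * φ u)‖) =
      ‖(2 * Real.pi * Complex.I * β) * ∫ u in a..b, ee (β * φ u)‖ := by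
    rw [norm_mul, norm_mul, norm_mul, norm_mul, Complex.norm_I, Complex.norm_real,
      Complex.norm_real, Real.norm_eq_abs, Real.norm_eq_abs, abs_of_pos Real.pi_pos]
    simp
    ring
  rw [h5, h3]
  have hinv : ∀ u : ℝ, a ≤ u → u ≤ b → ‖(((φ1 u)⁻¹ : ℝ) : ℂ) *
      ee (β * φ u)‖ ≤ 1 / m := by
    intro u hu1 hu2
    have h6 := h1 u hu1 hu2
    rw [norm_mul, norm_ee, mul_one, Complex.norm_real, Real.norm_eq_abs,
      abs_of_pos (inv_pos.2 (by linarith)), one_div]
    exact inv_anti₀ hm h6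
  refine (norm_sub_le _ _).trans ?_
  have h6 := (norm_sub_le ((((φ1 b)⁻¹ : ℝ) : ℂ) * ee (β * φ b))
    ((((φ1 a)⁻¹ : ℝ) : ℂ) * ee (β * φ a)))
  have h7 := hinv b hab le_rfl
  have h8 := hinv a le_rfl hab
  have h9 : ‖∫ u in a..b, (((-φ2 u /
      φ1 u ^ 2 : ℝ)) : ℂ) * ee (β * φ u)‖ ≤ (S / m ^ 2) * |b - a| := by
    apply intervalIntegral.norm_integral_le_of_norm_le_const
    intro u hu
    rw [Set.uIoc_of_le hab] at hu
    have h10 := h1 u hu.1.le hu.2
    have h11 := h2 u hu.1.le hu.2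
    have h12 : 0 < φ1 u := by linarith
    rw [norm_mul, norm_ee, mul_one, Complex.norm_real, Real.norm_eq_abs, abs_div, abs_neg,
      abs_of_pos (pow_pos h12 2)]
    exact div_le_div₀ ((abs_nonneg _).trans h11) h11 (by positivity)
      (pow_le_pow_left₀ hm.le h10 2)
  rw [abs_of_nonneg (sub_nonneg.2 hab)] at h9
  have h10 : 2 / m = 1 / m + 1 / m := by ring
  rw [h10]
  linarith

/-- derivatives of a power -/
theorem dpow (m u : ℝ) (hu : 0 < u) : HasDerivAt (fun u : ℝ => u ^ m) (m * u ^ (m - 1)) u :=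
  Real.hasDerivAt_rpow_const (Or.inl hu.ne')

theorem s_VANX : S_VANX := by
  intro m hm a ha
  have ha1 : (1 : ℝ) ≤ a := by exact_mod_cast ha
  have hpi := Real.pi_pos
  have hm0 : 0 < m := by linarith
  have hφ : Continuous fun u : ℝ => u ^ m := Real.continuous_rpow_const hm0.le
  refine ⟨3 * a * (2 * Real.pi * (m * (4 * a) ^ (m - 1))) +
    (2 / m + 3 * (m * m * 4 ^ (m - 1)) / m ^ 2), by positivity, ?_⟩
  filter_upwards [eventually_ge_atTop 1] with P hP1 β
  have hP1' : (1 : ℝ) ≤ P := by exact_mod_cast hP1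
  have hP0 : (0 : ℝ) < P := by linarith
  have hPp : (0 : ℝ) < (P : ℝ) ^ (m - 1) := by positivity
  have hPk : (P : ℝ) ^ m = P ^ (m - 1) * P := by
    rw [← Real.rpow_add_one hP0.ne']
    congr 1
    ring
  have haP : (P : ℝ) ≤ a * P := by nlinarith
  have hcast1 : (((a * P : ℕ)) : ℝ) = a * P := by push_cast; ring
  have hcast2 : (((4 * (a * P) : ℕ)) : ℝ) = 4 * (a * P) := by push_cast; ring
  constructor
  · unfold WSg WIg
    have h1 := sum_sub_int (φ1 := fun u => m * u ^ (m - 1)) hφ (a * P) (4 * (a * P)) (by omega) β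
      (m * (4 * a) ^ (m - 1) * P ^ (m - 1))
      (by
        intro u hu1 _
        rw [hcast1] at hu1
        exact dpow m u (by linarith))
      (by
        intro u hu1 hu2
        rw [hcast1] at hu1
        rw [hcast2] at hu2
        have hu0 : 0 < u := by linarith
        rw [abs_of_pos (by positivity), mul_assoc]
        apply mul_le_mul_of_nonneg_left _ hm0.le
        rw [← Real.mul_rpow (by positivity) hP0.le]
        apply Real.rpow_le_rpow hu0.le _ (by linarith)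
        linarith)
    refine h1.trans ?_
    rw [hcast1, hcast2, hPk]
    have h2 : 0 ≤ (2 / m + 3 * (m * m * 4 ^ (m - 1)) / m ^ 2) * |β| * ((P : ℝ) ^ (m - 1) * P) := by
      positivity
    have h3 : (4 * ((a : ℝ) * P) - a * P) * (2 * Real.pi * |β| * (m * (4 * a) ^ (m - 1) * P ^ (m - 1))) =
        3 * a * (2 * Real.pi * (m * (4 * a) ^ (m - 1))) * |β| * ((P : ℝ) ^ (m - 1) * P) := by ring
    rw [h3, add_mul, add_mul]
    linarith
  · unfold WIg
    rw [hcast1, hcast2]
    have hA : (0 : ℝ) < ((a : ℝ) * P) := by positivity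
    have hAp : (0 : ℝ) < ((a : ℝ) * P) ^ (m - 1) := by positivity
    have hm1 : 0 < m - 1 := by linarith
    have h1 := int_parts (φ1 := fun u => m * u ^ (m - 1))
      (φ2 := fun u => m * ((m - 1) * u ^ (m - 1 - 1))) hφ (a * P) (4 * (a * P)) (by linarith) β
      (m * (a * P) ^ (m - 1))
      (m * m * (4 * (a * P)) ^ (m - 1) / (a * P)) (by positivity)
      (fun u hu1 _ => dpow m u (by linarith))
      (fun u hu1 _ => (dpow (m - 1) u (by linarith)).const_mul m)
      (by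
        intro u hu
        have hu0 : u ≠ 0 := by
          have := hu.1
          linarith
        exact (continuousAt_const.mul (continuousAt_const.mul
          (continuousAt_id.rpow_const (Or.inl hu0)))).continuousWithinAt)
      (by
        intro u hu1 hu2
        have : ((a : ℝ) * P) ^ (m - 1) ≤ u ^ (m - 1) := Real.rpow_le_rpow hA.le hu1 hm1.le
        gcongr)
      (by
        intro u hu1 hu2
        have hu0 : 0 < u := by linarith
        rw [le_div_iff₀ hA, abs_of_nonneg (by positivity)]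
        have e1 : u ^ (m - 1 - 1) * u = u ^ (m - 1) := by
          rw [← Real.rpow_add_one hu0.ne']
          congr 1
          ring
        calc m * ((m - 1) * u ^ (m - 1 - 1)) * (a * P)
            ≤ m * ((m - 1) * u ^ (m - 1 - 1)) * u := by gcongr
          _ = m * (m - 1) * (u ^ (m - 1 - 1) * u) := by ring
          _ = m * (m - 1) * u ^ (m - 1) := by rw [e1]
          _ ≤ m * m * u ^ (m - 1) := by gcongr; linarith
          _ ≤ m * m * (4 * (a * P)) ^ (m - 1) := by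
              have := Real.rpow_le_rpow hu0.le hu2 hm1.le
              gcongr)
    have h2 : 2 / (m * ((a : ℝ) * P) ^ (m - 1)) + (4 * ((a : ℝ) * P) - a * P) *
        (m * m * (4 * ((a : ℝ) * P)) ^ (m - 1) / (a * P) / (m * (a * P) ^ (m - 1)) ^ 2) =
        (2 / m + 3 * (m * m * 4 ^ (m - 1)) / m ^ 2) / ((a : ℝ) * P) ^ (m - 1) := by
      rw [Real.mul_rpow (by norm_num) hA.le]
      generalize ((a : ℝ) * P) ^ (m - 1) = Z at hAp ⊢
      generalize (a : ℝ) * P = Y at hA ⊢
      field_simp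
      ring
    rw [h2] at h1
    have h3 : (P : ℝ) ^ (m - 1) ≤ ((a : ℝ) * P) ^ (m - 1) := Real.rpow_le_rpow hP0.le haP hm1.le
    have h4 : |β| * ‖∫ u in ((a : ℝ) * P)..(4 * ((a : ℝ) * P)), ee (β * u ^ m)‖ ≤
        2 * Real.pi * (|β| * ‖∫ u in ((a : ℝ) * P)..(4 * ((a : ℝ) * P)), ee (β * u ^ m)‖) := by
      have h5 : 0 ≤ |β| * ‖∫ u in ((a : ℝ) * P)..(4 * ((a : ℝ) * P)), ee (β * u ^ m)‖ := by
        positivity
      have h6 := Real.pi_gt_three
      nlinarith
    refine h4.trans (h1.trans ?_)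
    apply div_le_div₀ (by positivity) _ hPp h3
    have : 0 ≤ 3 * (a : ℝ) * (2 * Real.pi * (m * (4 * a) ^ (m - 1))) := by positivity
    linarith

end Pool.Agent.L7h22.EX
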